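import Pool.Agent.V11231.SMF.Host

/-! Sets of integers hidden in faulty positions: the general transfer. -/

set_option autoImplicit false
set_option linter.unusedSectionVars false
set_option linter.unusedVariables false

namespace Pool.Agent.V11231.SZF

open Finset Pool.Agent.V11231.FLT Pool.Agent.V11231.VCF
open Pool.Agent.W969.MC (RC)

variable {E : Type} {D : ℕ}

/-- the positions of the elements of `S` -/
def pos (cls : E → Option ℤ) (S : Finset ℤ) : Set E := {e | ∃ z ∈ cls e, z ∈ S}

open Classical in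
lemma mix_true (S : Set E) (f : E → Fin D) (e : E) :
    mix S (fun _ => false) f e = true ↔ e ∈ S ∧ (f e : ℕ) = 0 := by
  unfold mix
  by_cases h : e ∈ S
  · rw [if_pos h, decide_eq_true_eq]
    exact ⟨fun h1 => ⟨h, h1⟩, fun h1 => h1.2⟩
  · rw [if_neg h]
    simp [h]

open Classical in
/-- the literals are constants or bits of the small set -/
lemma host_lsub (cls : E → Option ℤ) (f : E → Fin D) :
    ∃ (σ : E × Bool → Option ℤ) (c : E × Bool → Bool),
      ∀ S : Finset ℤ, literals (mix (pos cls S) (fun _ => false) f) (flt f) =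
        Pool.Agent.Y630.TF.lsub σ c (fun z => decide (z ∈ S)) := by
  refine ⟨fun q => if q.2 = true ∧ (f q.1 : ℕ) = 0 then cls q.1 else none,
    fun q => if q.2 = true then false else if (f q.1 : ℕ) = 0 then false else true,
    fun S => ?_⟩
  funext q
  unfold Pool.Agent.Y630.TF.lsub
  dsimp only
  by_cases hb : q.2 = true
  · by_cases hf : (f q.1 : ℕ) = 0
    · rw [if_pos ⟨hb, hf⟩]
      have h1 : literals (mix (pos cls S) (fun _ => false) f) (flt f) q =
          mix (pos cls S) (fun _ => false) f q.1 := by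
        unfold literals
        rw [if_pos hb]
      rw [h1]
      rcases hc : cls q.1 with _ | z
      · simp only [Option.elim_none]
        rw [if_pos hb, Bool.eq_false_iff, Ne, mix_true]
        rintro ⟨⟨z, hz, -⟩, -⟩
        rw [hc] at hz
        simp at hz
      · simp only [Option.elim_some]
        rw [Bool.eq_iff_iff, mix_true, decide_eq_true_eq]
        constructor
        · rintro ⟨⟨z', hz, hz'⟩, -⟩
          rw [hc, Option.mem_some_iff] at hz
          rw [hz]
          exact hz'
        · intro hz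
          exact ⟨⟨z, by rw [hc]; exact Option.mem_some_self z, hz⟩, hf⟩
    · rw [if_neg (fun h => hf h.2)]
      simp only [Option.elim_none]
      rw [if_pos hb]
      unfold literals
      rw [if_pos hb, Bool.eq_false_iff, Ne, mix_true]
      exact fun h => hf h.2
  · rw [if_neg (fun h => hb h.1)]
    simp only [Option.elim_none]
    rw [if_neg hb]
    unfold literals
    rw [if_neg hb]
    by_cases hf : (f q.1 : ℕ) = 0
    · rw [if_pos (show q.1 ∈ flt f from hf), if_pos hf]
    · rw [if_neg (show q.1 ∉ flt f from hf), if_neg hf]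
      have h1 : mix (pos cls S) (fun _ => false) f q.1 = false := by
        rw [Bool.eq_false_iff, Ne, mix_true]
        exact fun h => hf h.2
      rw [h1]
      rfl

variable [Fintype E] [DecidableEq E]

open Classical in
theorem core (hD : 0 < D) (cls : E → Option ℤ) (Yes No : (E → Bool) → Prop) (e : ℝ)
    (he : e < 9 / 20)
    {Λ : Type} [Fintype Λ] [Nonempty Λ] (yes no : Λ → Finset ℤ)
    (hyes : ∀ l, ((univ.filter fun f : E → Fin D =>
      ¬ Yes (mix (pos cls (yes l)) (fun _ => false) f)).card : ℝ) ≤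
        1 / 20 * (D : ℝ) ^ Fintype.card E)
    (hno : ∀ l, ((univ.filter fun f : E → Fin D =>
      ¬ No (mix (pos cls (no l)) (fun _ => false) f)).card : ℝ) ≤
        1 / 20 * (D : ℝ) ^ Fintype.card E) (s : ℕ)
    (hhard : ∀ C : RC ℤ, C.T = ∅ → C.S ≤ s →
      ((univ.filter fun l : Λ => C.acc fun z => decide (z ∈ yes l)).card : ℝ) / Fintype.card Λ ≤
        ((univ.filter fun l : Λ => C.acc fun z => decide (z ∈ no l)).card : ℝ) / Fintype.card Λ + e)
    {R : Type} [Fintype R] [Nonempty R] (C : R → LiteralCircuit E) (hs : ∀ r, (C r).s ≤ s)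
    (h1 : ∀ x : E → Bool, Yes x → 4 / 5 ≤ faultyAcceptance C D x)
    (h2 : ∀ x : E → Bool, No x → acceptance C x ≤ 1 / 4) : False := by
  have hF : Nonempty (Fin D) := ⟨⟨0, hD⟩⟩
  have hT : ∀ ρ, (toRC (C ρ)).T = ∅ := fun _ => rfl
  have hΛ : (0 : ℝ) < Fintype.card Λ := by exact_mod_cast Fintype.card_pos
  have hΩ : (0 : ℝ) < Fintype.card (R × (E → Fin D)) := by exact_mod_cast Fintype.card_pos
  obtain ⟨P, hP⟩ : ∃ P : R × (E → Fin D) → Finset ℤ → Prop, P = fun v S =>
      (C v.1).Accepts (mix (pos cls S) (fun _ => false) v.2) (flt v.2) := ⟨_, rfl⟩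
  have hω : ∀ v : R × (E → Fin D), ((univ.filter fun l : Λ => P v (yes l)).card : ℝ) ≤
      ((univ.filter fun l : Λ => P v (no l)).card : ℝ) + e * Fintype.card Λ := by
    intro v
    obtain ⟨σ, c, hσ⟩ := host_lsub cls v.2
    obtain ⟨C', hsize, -, hT', hacc⟩ := Pool.Agent.Y630.TF.subst (toRC (C v.1)) (0 : ℤ) σ c
    have hT2 : C'.T = ∅ := hT'.mpr (hT v.1)
    have h3 : ∀ S : Finset ℤ, C'.acc (fun z => decide (z ∈ S)) ↔ P v S := by
      intro S
      rw [hacc, ← hσ S, ← lit_eq, hP]
      exact toRC_acc _ _ _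
    have h6 : C'.S ≤ s := by
      have h4 : C'.size = C'.S := by
        unfold Pool.Agent.W969.MC.RC.size
        rw [hT2, Finset.sum_empty, Nat.add_zero]
      have h5 : (toRC (C v.1)).size = (toRC (C v.1)).S := by
        unfold Pool.Agent.W969.MC.RC.size
        rw [hT v.1, Finset.sum_empty, Nat.add_zero]
      rw [← h4, hsize, h5]
      exact hs v.1
    have h4 := hhard C' hT2 h6
    simp only [h3] at h4
    rw [div_le_iff₀ hΛ, add_mul, div_mul_cancel₀ _ hΛ.ne'] at h4
    exact h4
  have hyes' : ∀ l, 3 / 4 * (Fintype.card (R × (E → Fin D)) : ℝ) ≤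
      ((univ.filter fun v => P v (yes l)).card : ℝ) := by
    intro l
    have key := thick_accept hD C (pos cls (yes l)) (fun _ => false)
      (fun f => Yes (mix (pos cls (yes l)) (fun _ => false) f)) ?_ ?_
    · rw [hP]
      exact key
    · refine le_trans (le_of_eq ?_) (hyes l)
      congr!
    · intro f hf
      exact h1 _ hf
  have hno' : ∀ l, ((univ.filter fun v => P v (no l)).card : ℝ) ≤
      3 / 10 * (Fintype.card (R × (E → Fin D)) : ℝ) := by
    intro l
    have key := Pool.Agent.V11231.SMF.thick_reject2 hD C (pos cls (no l)) (fun _ => false)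
      (fun f => No (mix (pos cls (no l)) (fun _ => false) f)) ?_ ?_
    · rw [hP]
      exact key
    · refine le_trans (le_of_eq ?_) (hno l)
      congr!
    · intro f hf
      exact h2 _ hf
  have hswap : ∀ F : Λ → Finset ℤ, ∑ l : Λ, ((univ.filter fun v => P v (F l)).card : ℝ) =
      ∑ v : R × (E → Fin D), ((univ.filter fun l : Λ => P v (F l)).card : ℝ) := by
    intro F
    simp only [Finset.card_filter]
    push_cast
    rw [Finset.sum_comm]
  have s1 := Finset.sum_le_sum fun l (_ : l ∈ (univ : Finset Λ)) => hyes' l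
  have s2 := Finset.sum_le_sum fun l (_ : l ∈ (univ : Finset Λ)) => hno' l
  have s3 := Finset.sum_le_sum fun v (_ : v ∈ (univ : Finset (R × (E → Fin D)))) => hω v
  rw [Finset.sum_const, Finset.card_univ, nsmul_eq_mul, hswap] at s1
  rw [Finset.sum_const, Finset.card_univ, nsmul_eq_mul, hswap] at s2
  rw [Finset.sum_add_distrib, Finset.sum_const, Finset.card_univ, nsmul_eq_mul] at s3
  have hprod : (0 : ℝ) < Fintype.card Λ * Fintype.card (R × (E → Fin D)) := mul_pos hΛ hΩ
  have s4 : (Fintype.card Λ : ℝ) * (3 / 4 * (Fintype.card (R × (E → Fin D)) : ℝ)) ≤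
      (Fintype.card Λ : ℝ) * (3 / 10 * (Fintype.card (R × (E → Fin D)) : ℝ)) +
      (Fintype.card (R × (E → Fin D)) : ℝ) * (e * Fintype.card Λ) :=
    s1.trans (s3.trans (add_le_add_left s2 _))
  have s5 : e * ((Fintype.card Λ : ℝ) * Fintype.card (R × (E → Fin D))) <
      9 / 20 * ((Fintype.card Λ : ℝ) * Fintype.card (R × (E → Fin D))) :=
    mul_lt_mul_of_pos_right he hprod
  linarith

end Pool.Agent.V11231.SZF
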