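import Pool.Agent.V11231.SZF.Host

/-! Zero sums of three integers and circuits with unreliable negations. -/

set_option autoImplicit false
set_option linter.unusedSectionVars false
set_option linter.unusedVariables false

namespace Pool.Agent.V11231.SZF

open Finset Pool.Agent.V11231.FLT Pool.Agent.V11231.VCF Filter
open Pool.Agent.H560R2 (Has3)
open Pool.Agent.W969.MC (RC)
open Pool.Agent.V11231.SMF (sum_hard2)

/-- the square root of the cube -/
def rt (D : ℕ) : ℕ := Nat.sqrt (D ^ 3) + 1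

lemma rt_cube (D : ℕ) : D ^ 3 ≤ rt D ^ 2 := by
  have h1 := Nat.lt_succ_sqrt (D ^ 3)
  unfold rt
  calc D ^ 3 ≤ (Nat.sqrt (D ^ 3)).succ * (Nat.sqrt (D ^ 3)).succ := h1.le
    _ = _ := by rw [Nat.succ_eq_add_one]; ring

lemma le_rt (D : ℕ) (hD : 1 ≤ D) : D ≤ rt D := by
  have h1 : D ^ 2 ≤ rt D ^ 2 := (Nat.pow_le_pow_right hD (by norm_num)).trans (rt_cube D)
  exact (Nat.pow_le_pow_iff_left (by norm_num)).mp h1

lemma rt_le (D : ℕ) (hD : 1 ≤ D) : (rt D : ℝ) ≤ 2 * (D * Real.sqrt D) := by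
  have hDR : (1 : ℝ) ≤ D := by exact_mod_cast hD
  have h1 : ((Nat.sqrt (D ^ 3) : ℕ) : ℝ) ≤ D * Real.sqrt D := by
    have h2 : ((Nat.sqrt (D ^ 3) : ℕ) : ℝ) ^ 2 ≤ (D : ℝ) ^ 3 := by
      have := Nat.sqrt_le' (D ^ 3)
      exact_mod_cast this
    have h3 : (D * Real.sqrt D) ^ 2 = (D : ℝ) ^ 3 := by
      rw [mul_pow, Real.sq_sqrt (by positivity)]
      ring
    have h4 : (0 : ℝ) ≤ D * Real.sqrt D := by positivity
    exact abs_le_of_sq_le_sq' (by rw [h3]; exact h2) h4 |>.2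
  have h2 : (1 : ℝ) ≤ D * Real.sqrt D := by
    have h3 : (1 : ℝ) ≤ Real.sqrt D := by
      rw [Real.one_le_sqrt]
      exact hDR
    nlinarith
  unfold rt
  push_cast
  linarith

/-- the parameters -/
lemma params4 (t h a : ℝ) (ht : 0 ≤ t) (hh : 0 ≤ h) (hth : t + h < 2) (ha : 0 < a) (n₀ : ℕ) :
    ∃ N₀ : ℕ, 0 < N₀ ∧ ∀ N : ℕ, N₀ ≤ N → ∀ D : ℕ, 1 ≤ D → (D : ℝ) ≤ (N : ℝ) ^ h →
      n₀ ≤ N * D / (60000 * rt D) ∧ 1 ≤ N * D / (60000 * rt D) ∧
      (N : ℝ) ^ t ≤ ((N * D / (60000 * rt D) : ℕ) : ℝ) ^ ((t / (1 - h / 2) + 2) / 2) ∧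
      ((N * D / (60000 * rt D) : ℕ) : ℝ) ^ (-a) < 9 / 20 := by
  have h1 : 0 < 1 - h / 2 := by linarith
  have h2 : t / (1 - h / 2) < 2 := by
    rw [div_lt_iff₀ h1]
    linarith
  have h3 : 0 ≤ t / (1 - h / 2) := div_nonneg ht h1.le
  obtain ⟨u, hu⟩ : ∃ u, u = (t / (1 - h / 2) + 2) / 2 := ⟨_, rfl⟩
  rw [← hu]
  have hu0 : 0 < u := by linarith
  have hu1 : 0 < (1 - h / 2) * u - t := by
    have h4 : t / (1 - h / 2) < u := by linarith
    rw [div_lt_iff₀ h1] at h4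
    linarith
  have e0 : ∀ᶠ n : ℕ in atTop, (n : ℝ) ^ (-a) < 9 / 20 :=
    ((tendsto_rpow_neg_atTop ha).comp tendsto_natCast_atTop_atTop).eventually_lt_const
      (by norm_num)
  obtain ⟨n₁, hn₁⟩ := eventually_atTop.mp e0
  have e1 : ∀ᶠ N : ℕ in atTop, (240000 : ℝ) ^ u ≤ (N : ℝ) ^ ((1 - h / 2) * u - t) :=
    ((tendsto_rpow_atTop hu1).comp tendsto_natCast_atTop_atTop).eventually_ge_atTop _
  have e2 : ∀ᶠ N : ℕ in atTop, (240000 * (n₀ + n₁ + 1) : ℝ) ≤ (N : ℝ) ^ (1 - h / 2) :=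
    ((tendsto_rpow_atTop h1).comp tendsto_natCast_atTop_atTop).eventually_ge_atTop _
  obtain ⟨N₀, hN₀⟩ := eventually_atTop.mp (e1.and (e2.and (eventually_ge_atTop 1)))
  refine ⟨N₀ + 1, by omega, fun N hN D hD hDN => ?_⟩
  obtain ⟨g1, g2, g3⟩ := hN₀ N (by omega)
  have hNpos : (0 : ℝ) < N := by exact_mod_cast g3
  have hDR : (1 : ℝ) ≤ D := by exact_mod_cast hD
  have hD0 : (0 : ℝ) < D := by linarith
  have hR0 : 0 < rt D := lt_of_lt_of_le (by omega) (le_rt D hD)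
  have hR0R : (0 : ℝ) < rt D := by exact_mod_cast hR0
  have h4 : (N : ℝ) ^ (1 - h / 2) * rt D ≤ 2 * (N * D) := by
    have h5 : Real.sqrt D ≤ (N : ℝ) ^ (h / 2) := by
      rw [Real.sqrt_le_left (by positivity), ← Real.rpow_natCast, ← Real.rpow_mul hNpos.le]
      refine hDN.trans (le_of_eq ?_)
      congr 1
      push_cast
      ring
    calc (N : ℝ) ^ (1 - h / 2) * rt D ≤ (N : ℝ) ^ (1 - h / 2) * (2 * (D * Real.sqrt D)) :=
          mul_le_mul_of_nonneg_left (rt_le D hD) (by positivity)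
      _ ≤ (N : ℝ) ^ (1 - h / 2) * (2 * (D * (N : ℝ) ^ (h / 2))) := by gcongr
      _ = 2 * D * ((N : ℝ) ^ (1 - h / 2) * (N : ℝ) ^ (h / 2)) := by ring
      _ = 2 * D * N := by
          rw [← Real.rpow_add hNpos]
          simp
      _ = _ := by ring
  obtain ⟨n, hn⟩ : ∃ n, n = N * D / (60000 * rt D) := ⟨_, rfl⟩
  have h5 : (N : ℝ) * D < ((n : ℝ) + 1) * (60000 * rt D) := by
    have h6 : N * D < (n + 1) * (60000 * rt D) := by
      have h7 := Nat.div_add_mod (N * D) (60000 * rt D)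
      have h8 := Nat.mod_lt (N * D) (by positivity : 60000 * rt D > 0)
      rw [← hn] at h7
      calc N * D = 60000 * rt D * n + N * D % (60000 * rt D) := h7.symm
        _ < 60000 * rt D * n + 60000 * rt D := by omega
        _ = _ := by ring
    exact_mod_cast h6
  rw [← hn]
  have h7 : (N : ℝ) ^ (1 - h / 2) ≤ (n + 1) * 120000 := by
    have h8 : (N : ℝ) ^ (1 - h / 2) * rt D ≤ ((n + 1) * 120000) * rt D := by linarith
    exact le_of_mul_le_mul_right h8 hR0R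
  have h8 : (2 * (n₀ + n₁ + 1) : ℝ) ≤ n + 1 := by linarith
  have h9 : 2 * (n₀ + n₁ + 1) ≤ n + 1 := by exact_mod_cast h8
  have h10 : (1 : ℝ) ≤ n := by exact_mod_cast (by omega : 1 ≤ n)
  refine ⟨by omega, by omega, ?_, hn₁ n (by omega)⟩
  have h11 : (N : ℝ) ^ (1 - h / 2) / 240000 ≤ n := by
    rw [div_le_iff₀ (by norm_num)]
    linarith
  calc (N : ℝ) ^ t = (N : ℝ) ^ ((1 - h / 2) * u) / (N : ℝ) ^ ((1 - h / 2) * u - t) := by
        rw [← Real.rpow_sub hNpos]
        congr 1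
        ring
    _ ≤ (N : ℝ) ^ ((1 - h / 2) * u) / 240000 ^ u :=
        div_le_div_of_nonneg_left (by positivity) (by positivity) g1
    _ = ((N : ℝ) ^ (1 - h / 2) / 240000) ^ u := by
        rw [Real.div_rpow (by positivity) (by norm_num), ← Real.rpow_mul hNpos.le]
    _ ≤ _ := Real.rpow_le_rpow (by positivity) h11 hu0.le

/-- **Zero sums need reliable negations.** -/
theorem zero_fault (t h b : ℝ) (ht : 0 ≤ t) (hh : 0 ≤ h) (hb : 0 < b) (hth : t + h < 2) :
    ∃ N₀ : ℕ, ∀ N : ℕ, N₀ ≤ N → ∀ U : ℕ, (N : ℝ) ^ (1 + h + b) ≤ U →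
      ∀ D : ℕ, 1 ≤ D → (D : ℝ) ≤ (N : ℝ) ^ h →
      ∀ (R : Type) [Fintype R] [Nonempty R] (C : R → LiteralCircuit (Set.Icc (-(U : ℤ)) U)),
      (∀ x : Set.Icc (-(U : ℤ)) U → Bool, size x ≤ N → HasZero x →
        4 / 5 ≤ faultyAcceptance C D x) →
      (∀ x : Set.Icc (-(U : ℤ)) U → Bool, size x ≤ N → ¬ HasZero x → acceptance C x ≤ 1 / 4) →
      ∃ r, (N : ℝ) ^ t < (C r).s := by
  have h1 : 0 < 1 - h / 2 := by linarith
  have h2 : t / (1 - h / 2) < 2 := by
    rw [div_lt_iff₀ h1]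
    linarith
  have h3 : 0 ≤ t / (1 - h / 2) := div_nonneg ht h1.le
  obtain ⟨a, ha, n₀, hn₀⟩ := sum_hard2 0 ((t / (1 - h / 2) + 2) / 2) b le_rfl (by linarith) hb
    (by linarith)
  obtain ⟨N₀, hN₀p, hN₀⟩ := params4 t h a ht hh hth ha n₀
  refine ⟨N₀, fun N hN U hU D hD hDN R _ _ C c1 c2 => ?_⟩
  obtain ⟨g1, g2, g3, g4⟩ := hN₀ N hN D hD hDN
  by_contra hlt
  push Not at hlt
  have hNp : 0 < N := lt_of_lt_of_le hN₀p hN
  have hNpos : (0 : ℝ) < N := by exact_mod_cast hNp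
  have hDR : (1 : ℝ) ≤ D := by exact_mod_cast hD
  have hD0 : (0 : ℝ) < D := by linarith
  have hR0 : 0 < rt D := lt_of_lt_of_le (by omega) (le_rt D hD)
  obtain ⟨r₀, -, hr₀⟩ := Finset.exists_max_image (univ : Finset R) (fun r => (C r).s)
    Finset.univ_nonempty
  obtain ⟨Λ, _, _, yes, no, hyes, hno, hcirc⟩ := hn₀ _ g1
  have hnD : 60000 * rt D * (N * D / (60000 * rt D)) ≤ N * D := Nat.mul_div_le (N * D) _
  obtain ⟨n, hn⟩ : ∃ n, n = N * D / (60000 * rt D) := ⟨_, rfl⟩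
  rw [← hn] at g1 g2 g3 g4 hyes hno hcirc hnD
  have hnDr : 60000 * rt D * (n : ℝ) ≤ N * D := by exact_mod_cast hnD
  have hn1 : (1 : ℝ) ≤ n := by exact_mod_cast g2
  have hnN : n ≤ N := by
    have h5 : D * n ≤ D * N := by
      calc D * n ≤ 60000 * rt D * n := Nat.mul_le_mul_right n (by
            have := le_rt D hD
            omega)
        _ ≤ N * D := hnD
        _ = _ := by ring
    exact Nat.le_of_mul_le_mul_left h5 (by omega)
  have hnNR : (n : ℝ) ≤ N := by exact_mod_cast hnN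
  obtain ⟨V, hV⟩ : ∃ V : ℤ, V = U / 3 := ⟨_, rfl⟩
  have hV3 : 3 * V ≤ U := by omega
  -- the range
  have hrange : ∀ z : ℤ, 0 ≤ z → (z : ℝ) ≤ (n : ℝ) ^ (1 + 0 + b) →
      (z + 1) * (2 * ((2 * (300 * rt D) : ℕ) : ℤ)) ≤ V := by
    intro z hz0 hz
    have k1 : (1 : ℝ) ≤ (n : ℝ) ^ (1 + 0 + b) := Real.one_le_rpow hn1 (by linarith)
    have k2 : 3 * (((z + 1 : ℤ) : ℝ) * (2 * (2 * (300 * (rt D : ℝ))))) ≤ U := by
      push_cast
      have k3 : (z : ℝ) + 1 ≤ 2 * (n : ℝ) ^ (1 + 0 + b) := by linarith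
      have k4 : (n : ℝ) ^ (1 + 0 + b) = n * (n : ℝ) ^ b := by
        rw [add_zero, Real.rpow_add (by linarith), Real.rpow_one]
      have k5 : (n : ℝ) ^ b ≤ (N : ℝ) ^ b := Real.rpow_le_rpow (by linarith) hnNR hb.le
      have k6 : (N : ℝ) ^ (1 + h + b) = N * (N : ℝ) ^ h * (N : ℝ) ^ b := by
        rw [Real.rpow_add hNpos, Real.rpow_add hNpos, Real.rpow_one]
      refine le_trans ?_ hU
      calc 3 * (((z : ℝ) + 1) * (2 * (2 * (300 * (rt D : ℝ)))))
          ≤ 3 * ((2 * (n : ℝ) ^ (1 + 0 + b)) * (2 * (2 * (300 * (rt D : ℝ))))) := by gcongr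
        _ = (7200 * rt D * n) * (n : ℝ) ^ b := by
            rw [k4]
            ring
        _ ≤ (N * (N : ℝ) ^ h) * (N : ℝ) ^ b := by
            have k7 : 7200 * rt D * (n : ℝ) ≤ N * (N : ℝ) ^ h := by
              have k8 : 0 ≤ (rt D : ℝ) * n := by positivity
              have k9 : (N : ℝ) * D ≤ N * (N : ℝ) ^ h := mul_le_mul_of_nonneg_left hDN hNpos.le
              linarith
            gcongr
        _ = _ := k6.symm
    have k8 : 3 * ((z + 1) * (2 * ((2 * (300 * rt D) : ℕ) : ℤ))) ≤ (U : ℤ) := by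
      have k9 : ((3 * ((z + 1) * (2 * ((2 * (300 * rt D) : ℕ) : ℤ))) : ℤ) : ℝ) ≤ ((U : ℤ) : ℝ) := by
        push_cast at k2 ⊢
        linarith
      exact_mod_cast k9
    omega
  have hsz : ∀ S : Finset ℤ, S.card ≤ n → 50 * (2 * (S.card * (2 * (300 * rt D)))) ≤ N * D := by
    intro S hS
    calc 50 * (2 * (S.card * (2 * (300 * rt D)))) = 60000 * rt D * S.card := by ring
      _ ≤ 60000 * rt D * n := Nat.mul_le_mul_left _ hS
      _ ≤ N * D := hnD
  have hK : 0 < 2 * (300 * rt D) := by omega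
  have hDE : (0 : ℝ) ≤ (D : ℝ) ^ Fintype.card (Set.Icc (-(U : ℤ)) U) := by positivity
  classical
  refine core (E := Set.Icc (-(U : ℤ)) U) (D := D) hD (cls U V ((2 * (300 * rt D) : ℕ) : ℤ))
    (fun x => size x ≤ N ∧ HasZero x) (fun x => size x ≤ N ∧ ¬ HasZero x)
    ((n : ℝ) ^ (-a)) g4 yes no ?_ ?_ (C r₀).s ?_ C
    (fun r => hr₀ r (Finset.mem_univ _)) (fun x hx => c1 x hx.1 hx.2) (fun x hx => c2 x hx.1 hx.2)
  · intro l
    obtain ⟨y1, y2, x, hx, y, hy, z, hz, hxy, -, -, hsum⟩ := hyes l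
    have rx := hrange x (y2 x hx).1 (y2 x hx).2
    have ry := hrange y (y2 y hy).1 (y2 y hy).2
    have rz := hrange z (y2 z hz).1 (y2 z hz).2
    obtain ⟨g, hg, q0, q1, q2⟩ := exists_g (U := U) (H := 300 * rt D) hV3 x y z (y2 x hx).1
      (y2 y hy).1 (y2 z hz).1 rx ry rz hxy
    have m1 := card_no_sum (H := 300 * rt D) (D := D) hD (le_rt D hD) (rt_cube D) rfl g hg
    have m2 := card_large (U := U) (V := V) (K := 2 * (300 * rt D)) hD (yes l) N (hsz _ y1) hNp hK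
    have m3 : ((univ.filter fun f : Set.Icc (-(U : ℤ)) U → Fin D =>
        ¬ (size (mix (pos (cls U V ((2 * (300 * rt D) : ℕ) : ℤ)) (yes l)) (fun _ => false) f) ≤ N ∧
          HasZero (mix (pos (cls U V ((2 * (300 * rt D) : ℕ) : ℤ)) (yes l))
            (fun _ => false) f))).card : ℝ) ≤
        ((univ.filter fun f : Set.Icc (-(U : ℤ)) U → Fin D =>
          ¬ ∃ T : Fin (300 * rt D) × Fin (300 * rt D), AllZero g T f).card : ℝ) +
        ((univ.filter fun f : Set.Icc (-(U : ℤ)) U → Fin D =>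
          N < size (mix (pos (cls U V ((2 * (300 * rt D) : ℕ) : ℤ)) (yes l))
            (fun _ => false) f)).card : ℝ) := by
      have h8 : (univ.filter fun f : Set.Icc (-(U : ℤ)) U → Fin D =>
          ¬ (size (mix (pos (cls U V ((2 * (300 * rt D) : ℕ) : ℤ)) (yes l))
            (fun _ => false) f) ≤ N ∧
          HasZero (mix (pos (cls U V ((2 * (300 * rt D) : ℕ) : ℤ)) (yes l))
            (fun _ => false) f))) ⊆
          (univ.filter fun f : Set.Icc (-(U : ℤ)) U → Fin D =>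
            ¬ ∃ T : Fin (300 * rt D) × Fin (300 * rt D), AllZero g T f) ∪
          (univ.filter fun f : Set.Icc (-(U : ℤ)) U → Fin D =>
            N < size (mix (pos (cls U V ((2 * (300 * rt D) : ℕ) : ℤ)) (yes l))
              (fun _ => false) f)) := by
        intro f hf
        rw [Finset.mem_filter] at hf
        rw [Finset.mem_union, Finset.mem_filter, Finset.mem_filter]
        by_cases hgd : ∃ T : Fin (300 * rt D) × Fin (300 * rt D), AllZero g T f
        · right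
          refine ⟨Finset.mem_univ _, ?_⟩
          by_contra h9
          exact hf.2 ⟨not_lt.mp h9, has_zero (y2 x hx).1 (y2 y hy).1 (y2 z hz).1 rx ry rz hsum
            hx hy hz g hg q0 q1 q2 f hgd⟩
        · left
          exact ⟨Finset.mem_univ _, hgd⟩
      have h9 := (Finset.card_le_card h8).trans (Finset.card_union_le _ _)
      exact_mod_cast h9
    refine le_trans (le_of_eq ?_) (m3.trans ?_)
    · congr!
    · have m1' : ((univ.filter fun f : Set.Icc (-(U : ℤ)) U → Fin D =>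
          ¬ ∃ T : Fin (300 * rt D) × Fin (300 * rt D), AllZero g T f).card : ℝ) ≤
          1 / 50 * (D : ℝ) ^ Fintype.card (Set.Icc (-(U : ℤ)) U) := by
        refine le_trans (le_of_eq ?_) m1
        congr!
      have m2' : ((univ.filter fun f : Set.Icc (-(U : ℤ)) U → Fin D =>
          N < size (mix (pos (cls U V ((2 * (300 * rt D) : ℕ) : ℤ)) (yes l))
            (fun _ => false) f)).card : ℝ) ≤
          1 / 50 * (D : ℝ) ^ Fintype.card (Set.Icc (-(U : ℤ)) U) := by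
        refine le_trans (le_of_eq ?_) m2
        congr!
      linarith
  · intro l
    obtain ⟨y1, -, y3⟩ := hno l
    have m2 := card_large (U := U) (V := V) (K := 2 * (300 * rt D)) hD (no l) N (hsz _ y1) hNp hK
    have m4 : (univ.filter fun f : Set.Icc (-(U : ℤ)) U → Fin D =>
        ¬ (size (mix (pos (cls U V ((2 * (300 * rt D) : ℕ) : ℤ)) (no l)) (fun _ => false) f) ≤ N ∧
          ¬ HasZero (mix (pos (cls U V ((2 * (300 * rt D) : ℕ) : ℤ)) (no l))
            (fun _ => false) f))) ⊆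
        (univ.filter fun f : Set.Icc (-(U : ℤ)) U → Fin D =>
          N < size (mix (pos (cls U V ((2 * (300 * rt D) : ℕ) : ℤ)) (no l))
            (fun _ => false) f)) := by
      intro f hf
      rw [Finset.mem_filter] at hf ⊢
      refine ⟨hf.1, ?_⟩
      by_contra h9
      exact hf.2 ⟨not_lt.mp h9, no_zero (by exact_mod_cast hK) y3 f⟩
    have m5 : ((univ.filter fun f : Set.Icc (-(U : ℤ)) U → Fin D =>
        ¬ (size (mix (pos (cls U V ((2 * (300 * rt D) : ℕ) : ℤ)) (no l)) (fun _ => false) f) ≤ N ∧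
          ¬ HasZero (mix (pos (cls U V ((2 * (300 * rt D) : ℕ) : ℤ)) (no l))
            (fun _ => false) f))).card : ℝ) ≤
        ((univ.filter fun f : Set.Icc (-(U : ℤ)) U → Fin D =>
          N < size (mix (pos (cls U V ((2 * (300 * rt D) : ℕ) : ℤ)) (no l))
            (fun _ => false) f)).card : ℝ) := by
      exact_mod_cast Finset.card_le_card m4
    refine le_trans (le_of_eq ?_) (m5.trans ?_)
    · congr!
    · have m2' : ((univ.filter fun f : Set.Icc (-(U : ℤ)) U → Fin D =>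
          N < size (mix (pos (cls U V ((2 * (300 * rt D) : ℕ) : ℤ)) (no l))
            (fun _ => false) f)).card : ℝ) ≤
          1 / 50 * (D : ℝ) ^ Fintype.card (Set.Icc (-(U : ℤ)) U) := by
        refine le_trans (le_of_eq ?_) m2
        congr!
      linarith
  · intro C' hT' hS'
    have q1 := hcirc C'.S C'.T C'.wd C'.a C'.op C'.θ C'.val C'.o C'.τ C'.htop C'.hmon C'.hT
      C'.hval (by
        rw [hT', Finset.sum_empty, Nat.add_zero]
        have q2 : (C'.S : ℝ) ≤ ((C r₀).s : ℝ) := by exact_mod_cast hS'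
        exact q2.trans ((hlt r₀).trans g3)) (by
        rw [hT', Finset.prod_empty, Real.rpow_zero]
        norm_num)
    exact q1

end Pool.Agent.V11231.SZF
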