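import Pool.Agent.V11231.SZF.Moment
import Pool.Agent.V11231.SZF.Core

/-! Sets of integers from `-U` to `U` hidden in the faulty positions. -/

set_option autoImplicit false
set_option linter.unusedSectionVars false
set_option linter.unusedVariables false

namespace Pool.Agent.V11231.SZF

open Finset Pool.Agent.V11231.FLT Pool.Agent.V11231.VCF
open Pool.Agent.V11231.SMF (Deg3 card_many)

/-- The set of the integers `z` with `-U ≤ z ≤ U` and `x z = true` has three different elements with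
sum zero. -/
def HasZero {U : ℕ} (x : Set.Icc (-(U : ℤ)) U → Bool) : Prop :=
  ∃ a b c : Set.Icc (-(U : ℤ)) U, x a = true ∧ x b = true ∧ x c = true ∧
    a ≠ b ∧ a ≠ c ∧ b ≠ c ∧ (a : ℤ) + b + c = 0

/-- the number of the elements of the set -/
noncomputable def size {U : ℕ} (x : Set.Icc (-(U : ℤ)) U → Bool) : ℕ :=
  Nat.card {z : Set.Icc (-(U : ℤ)) U // x z = true}

variable {U D : ℕ}

/-- the element whose presence is shown at position `e` -/
def cls (U : ℕ) (V K : ℤ) (e : Set.Icc (-(U : ℤ)) U) : Option ℤ :=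
  if V ≤ (e : ℤ) ∧ (e : ℤ) < 2 * V ∧ ((e : ℤ) - V) % (2 * K) < K then
    some (((e : ℤ) - V) / (2 * K))
  else if (e : ℤ) ≤ -2 * V ∧ -3 * V < (e : ℤ) ∧ (-2 * V - (e : ℤ)) % (2 * K) < K then
    some ((-2 * V - (e : ℤ)) / (2 * K))
  else none

lemma mem_pos {V K : ℤ} (S : Finset ℤ) (e : Set.Icc (-(U : ℤ)) U) :
    e ∈ pos (cls U V K) S ↔ ∃ w : ℤ, 0 ≤ w ∧ w < V ∧ w % (2 * K) < K ∧ w / (2 * K) ∈ S ∧
      ((e : ℤ) = V + w ∨ (e : ℤ) = -2 * V - w) := by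
  unfold pos cls
  rw [Set.mem_setOf_eq]
  constructor
  · rintro ⟨z, hz, hS⟩
    split_ifs at hz with h1 h2
    · rw [Option.mem_some_iff] at hz
      subst hz
      exact ⟨(e : ℤ) - V, by omega, by omega, h1.2.2, hS, Or.inl (by omega)⟩
    · rw [Option.mem_some_iff] at hz
      subst hz
      exact ⟨-2 * V - (e : ℤ), by omega, by omega, h2.2.2, hS, Or.inr (by omega)⟩
    · simp at hz
  · rintro ⟨w, h1, h2, h3, h4, h5 | h5⟩
    · have h6 : (e : ℤ) - V = w := by omega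
      rw [if_pos ⟨by omega, by omega, by rw [h6]; exact h3⟩, h6]
      exact ⟨_, Option.mem_some_self _, h4⟩
    · have h6 : -2 * V - (e : ℤ) = w := by omega
      rw [if_neg (fun h => by omega), if_pos ⟨by omega, by omega, by rw [h6]; exact h3⟩, h6]
      exact ⟨_, Option.mem_some_self _, h4⟩

/-- no new solutions -/
lemma no_zero {V K : ℤ} (hK : 0 < K) {S : Finset ℤ} (hS : ¬ Deg3 S)
    (f : Set.Icc (-(U : ℤ)) U → Fin D) :
    ¬ HasZero (mix (pos (cls U V K) S) (fun _ => false) f) := by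
  rintro ⟨a, b, c, ha, hb, hc, -, -, -, h⟩
  rw [mix_true, mem_pos] at ha hb hc
  obtain ⟨⟨u, a1, a2, a3, a4, a5⟩, -⟩ := ha
  obtain ⟨⟨v, b1, b2, b3, b4, b5⟩, -⟩ := hb
  obtain ⟨⟨w, c1, c2, c3, c4, c5⟩, -⟩ := hc
  have key : ∀ u v w : ℤ, u % (2 * K) < K → u / (2 * K) ∈ S → v % (2 * K) < K →
      v / (2 * K) ∈ S → w / (2 * K) ∈ S → u + v = w → False := by
    intro u v w u1 u2 v1 v2 w2 huv
    apply hS
    refine ⟨_, u2, _, v2, _, w2, ?_⟩
    have hK2 : (0 : ℤ) < 2 * K := by omega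
    have k1 := Int.emod_nonneg u hK2.ne'
    have k2 := Int.emod_nonneg v hK2.ne'
    have k3 := Int.mul_ediv_add_emod u (2 * K)
    have k4 := Int.mul_ediv_add_emod v (2 * K)
    have k5 := (Int.ediv_emod_unique (a := w) (r := u % (2 * K) + v % (2 * K))
      (q := u / (2 * K) + v / (2 * K)) hK2).mpr ⟨by linear_combination k3 + k4 + huv, by omega, by omega⟩
    exact k5.1.symm
  rcases a5 with a5 | a5 <;> rcases b5 with b5 | b5 <;> rcases c5 with c5 | c5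
  · omega
  · exact key u v w a3 a4 b3 b4 c4 (by omega)
  · exact key u w v a3 a4 c3 c4 b4 (by omega)
  · omega
  · exact key v w u b3 b4 c3 c4 a4 (by omega)
  · omega
  · omega
  · omega

/-- the positions of the summands and of the sum -/
lemma exists_g {V : ℤ} {H : ℕ} (hV : 3 * V ≤ U) (x y z : ℤ) (hx : 0 ≤ x) (hy : 0 ≤ y) (hz : 0 ≤ z)
    (hxV : (x + 1) * (2 * (2 * H : ℕ)) ≤ V) (hyV : (y + 1) * (2 * (2 * H : ℕ)) ≤ V)
    (hzV : (z + 1) * (2 * (2 * H : ℕ)) ≤ V) (hxy : x ≠ y) :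
    ∃ g : Fin 3 × Fin (2 * H) → Set.Icc (-(U : ℤ)) U, Function.Injective g ∧
      (∀ i, (g (0, i) : ℤ) = V + (x * (2 * (2 * H : ℕ)) + (i : ℕ))) ∧
      (∀ i, (g (1, i) : ℤ) = V + (y * (2 * (2 * H : ℕ)) + (i : ℕ))) ∧
      (∀ i, (g (2, i) : ℤ) = -2 * V - (z * (2 * (2 * H : ℕ)) + (i : ℕ))) := by
  obtain ⟨X, hX⟩ : ∃ X, X = x * (2 * ((2 * H : ℕ) : ℤ)) := ⟨_, rfl⟩
  obtain ⟨Y, hY⟩ : ∃ Y, Y = y * (2 * ((2 * H : ℕ) : ℤ)) := ⟨_, rfl⟩
  obtain ⟨Z, hZ⟩ : ∃ Z, Z = z * (2 * ((2 * H : ℕ) : ℤ)) := ⟨_, rfl⟩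
  have hH : (0 : ℤ) ≤ 2 * ((2 * H : ℕ) : ℤ) := by positivity
  have x0 : 0 ≤ X := by rw [hX]; exact mul_nonneg hx hH
  have y0 : 0 ≤ Y := by rw [hY]; exact mul_nonneg hy hH
  have z0 : 0 ≤ Z := by rw [hZ]; exact mul_nonneg hz hH
  have x1 : X + 2 * ((2 * H : ℕ) : ℤ) ≤ V := by rw [hX]; linarith
  have y1 : Y + 2 * ((2 * H : ℕ) : ℤ) ≤ V := by rw [hY]; linarith
  have z1 : Z + 2 * ((2 * H : ℕ) : ℤ) ≤ V := by rw [hZ]; linarith
  have hXY : X + 2 * ((2 * H : ℕ) : ℤ) ≤ Y ∨ Y + 2 * ((2 * H : ℕ) : ℤ) ≤ X := by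
    rcases lt_or_gt_of_ne hxy with h | h
    · left
      have h1 := mul_le_mul_of_nonneg_right (Int.add_one_le_of_lt h) hH
      rw [hX, hY]
      linarith
    · right
      have h1 := mul_le_mul_of_nonneg_right (Int.add_one_le_of_lt h) hH
      rw [hX, hY]
      linarith
  rw [← hX, ← hY, ← hZ]
  have hr : ∀ p : Fin 3 × Fin (2 * H), (![V + (X + ((p.2 : ℕ) : ℤ)), V + (Y + ((p.2 : ℕ) : ℤ)),
      -2 * V - (Z + ((p.2 : ℕ) : ℤ))] : Fin 3 → ℤ) p.1 ∈ Set.Icc (-(U : ℤ)) U := by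
    rintro ⟨k, i⟩
    have hi := i.isLt
    rw [Set.mem_Icc]
    fin_cases k
    · simp only [Fin.zero_eta, Matrix.cons_val_zero]
      omega
    · simp only [Fin.mk_one, Matrix.cons_val_one, Matrix.cons_val_zero]
      omega
    · simp only [Fin.reduceFinMk, Matrix.cons_val]
      omega
  refine ⟨fun p => ⟨_, hr p⟩, ?_, fun i => rfl, fun i => rfl, fun i => rfl⟩
  rintro ⟨k, i⟩ ⟨k', i'⟩ h
  have hi := i.isLt
  have hi' := i'.isLt
  have h1 : (![V + (X + ((i : ℕ) : ℤ)), V + (Y + ((i : ℕ) : ℤ)),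
      -2 * V - (Z + ((i : ℕ) : ℤ))] : Fin 3 → ℤ) k = (![V + (X + ((i' : ℕ) : ℤ)),
      V + (Y + ((i' : ℕ) : ℤ)), -2 * V - (Z + ((i' : ℕ) : ℤ))] : Fin 3 → ℤ) k' :=
    congrArg Subtype.val h
  clear h
  suffices hs : k = k' ∧ (i : ℕ) = i' from Prod.ext hs.1 (Fin.ext hs.2)
  obtain ⟨m, hm⟩ : ∃ m : ℕ, m = (i : ℕ) := ⟨_, rfl⟩
  obtain ⟨m', hm'⟩ : ∃ m' : ℕ, m' = (i' : ℕ) := ⟨_, rfl⟩
  rw [← hm] at h1 hi ⊢
  rw [← hm'] at h1 hi' ⊢
  fin_cases k <;> fin_cases k' <;>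
    simp only [Fin.zero_eta, Fin.mk_one, Fin.reduceFinMk, Matrix.cons_val_zero,
      Matrix.cons_val_one, Matrix.cons_val] at h1 <;>
    first
    | exact absurd h1 (by omega)
    | exact ⟨rfl, by omega⟩

lemma has_zero {V : ℤ} {H : ℕ} {S : Finset ℤ} {x y z : ℤ} (hx : 0 ≤ x) (hy : 0 ≤ y) (hz : 0 ≤ z)
    (hxV : (x + 1) * (2 * (2 * H : ℕ)) ≤ V) (hyV : (y + 1) * (2 * (2 * H : ℕ)) ≤ V)
    (hzV : (z + 1) * (2 * (2 * H : ℕ)) ≤ V)
    (hxyz : x + y = z) (hxS : x ∈ S) (hyS : y ∈ S) (hzS : z ∈ S)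
    (g : Fin 3 × Fin (2 * H) → Set.Icc (-(U : ℤ)) U) (hg : Function.Injective g)
    (g0 : ∀ i, (g (0, i) : ℤ) = V + (x * (2 * (2 * H : ℕ)) + (i : ℕ)))
    (g1 : ∀ i, (g (1, i) : ℤ) = V + (y * (2 * (2 * H : ℕ)) + (i : ℕ)))
    (g2 : ∀ i, (g (2, i) : ℤ) = -2 * V - (z * (2 * (2 * H : ℕ)) + (i : ℕ)))
    (f : Set.Icc (-(U : ℤ)) U → Fin D) (hf : ∃ T : Fin H × Fin H, AllZero g T f) :
    HasZero (mix (pos (cls U V (2 * H : ℕ)) S) (fun _ => false) f) := by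
  obtain ⟨T, f0, f1, f2⟩ := hf
  have hT1 := T.1.isLt
  have hT2 := T.2.isLt
  have hne : ∀ (k k' : Fin 3) (i j : Fin (2 * H)), k ≠ k' → g (k, i) ≠ g (k', j) :=
    fun k k' i j h h1 => h (Prod.mk.inj (hg h1)).1
  have key : ∀ (d i : ℤ), 0 ≤ d → (d + 1) * (2 * ((2 * H : ℕ) : ℤ)) ≤ V → 0 ≤ i →
      i < ((2 * H : ℕ) : ℤ) → d ∈ S →
      0 ≤ d * (2 * ((2 * H : ℕ) : ℤ)) + i ∧ d * (2 * ((2 * H : ℕ) : ℤ)) + i < V ∧
      (d * (2 * ((2 * H : ℕ) : ℤ)) + i) % (2 * ((2 * H : ℕ) : ℤ)) < ((2 * H : ℕ) : ℤ) ∧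
      (d * (2 * ((2 * H : ℕ) : ℤ)) + i) / (2 * ((2 * H : ℕ) : ℤ)) ∈ S := by
    intro d i hd hdV hi0 hi hdS
    have k0 : (0 : ℤ) ≤ d * (2 * ((2 * H : ℕ) : ℤ)) := mul_nonneg hd (by positivity)
    have k1 : d * (2 * ((2 * H : ℕ) : ℤ)) + 2 * ((2 * H : ℕ) : ℤ) ≤ V := by linarith
    have k2 := (Int.ediv_emod_unique (a := d * (2 * ((2 * H : ℕ) : ℤ)) + i) (r := i) (q := d)
      (b := 2 * ((2 * H : ℕ) : ℤ)) (by omega)).mpr ⟨by ring, hi0, by omega⟩
    refine ⟨by omega, by omega, ?_, ?_⟩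
    · rw [k2.2]
      exact hi
    · rw [k2.1]
      exact hdS
  refine ⟨g (0, c0 T), g (1, c1 T), g (2, c2 T), ?_, ?_, ?_, hne _ _ _ _ (by decide),
    hne _ _ _ _ (by decide), hne _ _ _ _ (by decide), ?_⟩
  · rw [mix_true, mem_pos]
    obtain ⟨k1, k2, k3, k4⟩ := key x ((c0 T : Fin (2 * H)) : ℕ) hx hxV (by positivity)
      (by exact_mod_cast (c0 T).isLt) hxS
    exact ⟨⟨_, k1, k2, k3, k4, Or.inl (g0 _)⟩, f0⟩
  · rw [mix_true, mem_pos]
    obtain ⟨k1, k2, k3, k4⟩ := key y ((c1 T : Fin (2 * H)) : ℕ) hy hyV (by positivity)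
      (by exact_mod_cast (c1 T).isLt) hyS
    exact ⟨⟨_, k1, k2, k3, k4, Or.inl (g1 _)⟩, f1⟩
  · rw [mix_true, mem_pos]
    obtain ⟨k1, k2, k3, k4⟩ := key z ((c2 T : Fin (2 * H)) : ℕ) hz hzV (by positivity)
      (by exact_mod_cast (c2 T).isLt) hzS
    exact ⟨⟨_, k1, k2, k3, k4, Or.inr (g2 _)⟩, f2⟩
  · rw [g0, g1, g2, ← hxyz]
    unfold c0 c1 c2
    push_cast
    ring

lemma size_eq (x : Set.Icc (-(U : ℤ)) U → Bool) :
    size x = (univ.filter fun z : Set.Icc (-(U : ℤ)) U => x z = true).card := by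
  unfold size
  rw [Nat.card_eq_fintype_card, Fintype.card_subtype]

open Classical in
/-- the host set is small for most functions -/
lemma card_large {V : ℤ} {K : ℕ} (hD : 0 < D) (S : Finset ℤ) (N : ℕ)
    (hN : 50 * (2 * (S.card * K)) ≤ N * D) (hNpos : 0 < N) (hK : 0 < K) :
    ((univ.filter fun f : Set.Icc (-(U : ℤ)) U → Fin D =>
      N < size (mix (pos (cls U V K) S) (fun _ => false) f)).card : ℝ) ≤
      1 / 50 * (D : ℝ) ^ Fintype.card (Set.Icc (-(U : ℤ)) U) := by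
  have hDR : (0 : ℝ) < D := by exact_mod_cast hD
  have hNR : (0 : ℝ) < N := by exact_mod_cast hNpos
  set B : Finset (Set.Icc (-(U : ℤ)) U) := univ.filter fun e => e ∈ pos (cls U V K) S with hB
  have hsz : ∀ f : Set.Icc (-(U : ℤ)) U → Fin D,
      size (mix (pos (cls U V K) S) (fun _ => false) f) =
      (B.filter fun e => (f e : ℕ) = 0).card := by
    intro f
    rw [size_eq]
    congr 1
    ext e
    rw [Finset.mem_filter, Finset.mem_filter, hB, Finset.mem_filter, mix_true]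
    simp
  have hBc : B.card ≤ 2 * (S.card * K) := by
    have h1 : B.card ≤ ((univ : Finset Bool) ×ˢ (S ×ˢ Finset.Ico (0 : ℤ) K)).card := by
      refine Finset.card_le_card_of_injOn
        (fun e => (decide (0 ≤ (e : ℤ)),
          ((if 0 ≤ (e : ℤ) then (e : ℤ) - V else -2 * V - (e : ℤ)) / (2 * (K : ℤ)),
          (if 0 ≤ (e : ℤ) then (e : ℤ) - V else -2 * V - (e : ℤ)) % (2 * (K : ℤ))))) ?_ ?_
      · intro e he
        rw [Finset.mem_coe, hB, Finset.mem_filter, mem_pos] at he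
        obtain ⟨-, w, h1, h2, h3, h4, h5⟩ := he
        rw [Finset.mem_coe, Finset.mem_product, Finset.mem_product, Finset.mem_Ico]
        have hw : (if 0 ≤ (e : ℤ) then (e : ℤ) - V else -2 * V - (e : ℤ)) = w := by
          split_ifs with h6 <;> omega
        dsimp only
        rw [hw]
        exact ⟨Finset.mem_univ _, h4, Int.emod_nonneg _ (by omega), h3⟩
      · intro e he e' he' hee
        simp only [Prod.mk.injEq, decide_eq_decide] at hee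
        obtain ⟨h1, h2, h3⟩ := hee
        have k1 := Int.mul_ediv_add_emod (if 0 ≤ (e : ℤ) then (e : ℤ) - V else -2 * V - (e : ℤ))
          (2 * (K : ℤ))
        have k2 := Int.mul_ediv_add_emod (if 0 ≤ (e' : ℤ) then (e' : ℤ) - V else -2 * V - (e' : ℤ))
          (2 * (K : ℤ))
        rw [h2, h3, k2] at k1
        apply Subtype.ext
        split_ifs at k1 with h4 h5 <;> omega
    have h2 : (Finset.Ico (0 : ℤ) K).card = K := by simp
    rw [Finset.card_product, Finset.card_product, h2, Finset.card_univ, Fintype.card_bool] at h1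
    exact h1
  have h1 := card_many hD B N
  have h2 : (univ.filter fun f : Set.Icc (-(U : ℤ)) U → Fin D =>
      N < size (mix (pos (cls U V K) S) (fun _ => false) f)) =
      univ.filter fun f : Set.Icc (-(U : ℤ)) U → Fin D =>
        N < (B.filter fun e => (f e : ℕ) = 0).card := by
    ext f
    rw [Finset.mem_filter, Finset.mem_filter, hsz]
  rw [h2]
  have h3 : 50 * (B.card : ℝ) ≤ N * D := by
    have h4 : 50 * B.card ≤ N * D := (Nat.mul_le_mul_left 50 hBc).trans hN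
    exact_mod_cast h4
  have h5 : (0 : ℝ) ≤ (D : ℝ) ^ Fintype.card (Set.Icc (-(U : ℤ)) U) := by positivity
  have h6 : (N : ℝ) * D * ((univ.filter fun f : Set.Icc (-(U : ℤ)) U → Fin D =>
      N < (B.filter fun e => (f e : ℕ) = 0).card).card : ℝ) ≤
      (N : ℝ) * D * (1 / 50 * (D : ℝ) ^ Fintype.card (Set.Icc (-(U : ℤ)) U)) := by
    refine h1.trans ?_
    have h7 := mul_le_mul_of_nonneg_right h3 h5
    linarith
  exact le_of_mul_le_mul_left h6 (by positivity)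

end Pool.Agent.V11231.SZF
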