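import Pool.Agent.V11231.TRF.Moment

/-! Random sets of positions contain solutions of `i + j = k`: the second moment. -/

set_option autoImplicit false
set_option linter.unusedSectionVars false
set_option linter.unusedVariables false

namespace Pool.Agent.V11231.SZF

open Finset
open Pool.Agent.V11231.TRF (card_zeros)

variable {E : Type} [Fintype E] [DecidableEq E] {H D : ℕ}

/-- the first position -/
def c0 (T : Fin H × Fin H) : Fin (2 * H) := ⟨T.1, by have := T.1.isLt; omega⟩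

/-- the second position -/
def c1 (T : Fin H × Fin H) : Fin (2 * H) := ⟨T.2, by have := T.2.isLt; omega⟩

/-- the third position -/
def c2 (T : Fin H × Fin H) : Fin (2 * H) :=
  ⟨T.1 + T.2, by have := T.1.isLt; have := T.2.isLt; omega⟩

/-- all three positions are zero -/
def AllZero (g : Fin 3 × Fin (2 * H) → E) (T : Fin H × Fin H) (f : E → Fin D) : Prop :=
  (f (g (0, c0 T)) : ℕ) = 0 ∧ (f (g (1, c1 T)) : ℕ) = 0 ∧ (f (g (2, c2 T)) : ℕ) = 0

open Classical in
/-- the indicator -/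
noncomputable def zz (g : Fin 3 × Fin (2 * H) → E) (T : Fin H × Fin H)
    (f : E → Fin D) : ℝ := if AllZero g T f then 1 else 0

open Classical in
/-- the factor of a pair -/
noncomputable def fac (D : ℕ) (a b : Fin (2 * H)) : ℝ := if a = b then D else 1

lemma pow_pair {D : ℕ} (hD : 0 < D) (g : Fin 3 × Fin (2 * H) → E) (hg : Function.Injective g)
    (c : Fin 3) (a b : Fin (2 * H)) :
    (D : ℝ) ^ ({g (c, a), g (c, b)} : Finset E).card * fac D a b = (D : ℝ) ^ 2 := by
  unfold fac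
  by_cases h : a = b
  · subst h
    rw [if_pos rfl, Finset.pair_eq_singleton, card_singleton]
    ring
  · rw [if_neg h, card_pair (fun h1 => h (Prod.mk.inj (hg h1)).2), mul_one]

open Classical in
lemma sum_zz (hD : 0 < D) (g : Fin 3 × Fin (2 * H) → E) (hg : Function.Injective g)
    (T T' : Fin H × Fin H) :
    (D : ℝ) ^ 6 * ∑ f : E → Fin D, zz g T f * zz g T' f =
      (D : ℝ) ^ Fintype.card E * (fac D (c0 T) (c0 T') * fac D (c1 T) (c1 T') *
        fac D (c2 T) (c2 T')) := by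
  set Q0 : Finset E := {g (0, c0 T), g (0, c0 T')} with hQ0
  set Q1 : Finset E := {g (1, c1 T), g (1, c1 T')} with hQ1
  set Q2 : Finset E := {g (2, c2 T), g (2, c2 T')} with hQ2
  have hne : ∀ (c c' : Fin 3) (a b : Fin (2 * H)), c ≠ c' → g (c, a) ≠ g (c', b) :=
    fun c c' a b h h1 => h (Prod.mk.inj (hg h1)).1
  have hd01 : Disjoint Q0 Q1 := by
    rw [hQ0, hQ1, disjoint_left]
    intro x hx hx'
    simp only [mem_insert, mem_singleton] at hx hx'
    rcases hx with rfl | rfl <;> rcases hx' with h | h <;> exact hne _ _ _ _ (by decide) h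
  have hd02 : Disjoint (Q0 ∪ Q1) Q2 := by
    rw [disjoint_union_left, hQ0, hQ1, hQ2]
    constructor
    · rw [disjoint_left]
      intro x hx hx'
      simp only [mem_insert, mem_singleton] at hx hx'
      rcases hx with rfl | rfl <;> rcases hx' with h | h <;> exact hne _ _ _ _ (by decide) h
    · rw [disjoint_left]
      intro x hx hx'
      simp only [mem_insert, mem_singleton] at hx hx'
      rcases hx with rfl | rfl <;> rcases hx' with h | h <;> exact hne _ _ _ _ (by decide) h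
  have h1 := card_zeros hD (Q0 ∪ Q1 ∪ Q2)
  rw [card_union_of_disjoint hd02, card_union_of_disjoint hd01] at h1
  have h2 : ∑ f : E → Fin D, zz g T f * zz g T' f =
      ((univ.filter fun f : E → Fin D => ∀ e ∈ Q0 ∪ Q1 ∪ Q2, (f e : ℕ) = 0).card : ℝ) := by
    rw [← Finset.sum_boole]
    refine sum_congr rfl fun f _ => ?_
    have h3 : (∀ e ∈ Q0 ∪ Q1 ∪ Q2, (f e : ℕ) = 0) ↔ (AllZero g T f ∧ AllZero g T' f) := by
      unfold AllZero
      rw [hQ0, hQ1, hQ2]
      simp only [mem_union, mem_insert, mem_singleton]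
      constructor
      · intro h
        refine ⟨⟨h _ ?_, h _ ?_, h _ ?_⟩, ⟨h _ ?_, h _ ?_, h _ ?_⟩⟩ <;> simp
      · rintro ⟨⟨a1, a2, a3⟩, ⟨b1, b2, b3⟩⟩ e ((( rfl | rfl) | (rfl | rfl)) | (rfl | rfl)) <;>
          assumption
    unfold zz
    by_cases ha : AllZero g T f
    · by_cases hb : AllZero g T' f
      · rw [if_pos ha, if_pos hb, if_pos (h3.mpr ⟨ha, hb⟩)]
        norm_num
      · rw [if_neg hb, if_neg (fun h => hb (h3.mp h).2)]
        norm_num
    · rw [if_neg ha, if_neg (fun h => ha (h3.mp h).1)]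
      norm_num
  rw [h2, ← h1]
  have p0 := pow_pair hD g hg 0 (c0 T) (c0 T')
  have p1 := pow_pair hD g hg 1 (c1 T) (c1 T')
  have p2 := pow_pair hD g hg 2 (c2 T) (c2 T')
  rw [← hQ0] at p0
  rw [← hQ1] at p1
  rw [← hQ2] at p2
  rw [pow_add, pow_add]
  obtain ⟨K, hK⟩ : ∃ K : ℝ, K = ((univ.filter fun f : E → Fin D =>
    ∀ e ∈ Q0 ∪ Q1 ∪ Q2, (f e : ℕ) = 0).card : ℝ) := ⟨_, rfl⟩
  rw [← hK]
  calc (D : ℝ) ^ 6 * K = (D : ℝ) ^ 2 * (D : ℝ) ^ 2 * (D : ℝ) ^ 2 * K := by ring
    _ = ((D : ℝ) ^ Q0.card * fac D (c0 T) (c0 T')) *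
        ((D : ℝ) ^ Q1.card * fac D (c1 T) (c1 T')) *
        ((D : ℝ) ^ Q2.card * fac D (c2 T) (c2 T')) * K := by
          rw [p0, p1, p2]
    _ = _ := by ring

lemma c0_iff (T T' : Fin H × Fin H) : c0 T = c0 T' ↔ (T.1 : ℕ) = T'.1 := by
  unfold c0
  rw [Fin.mk.injEq]

lemma c1_iff (T T' : Fin H × Fin H) : c1 T = c1 T' ↔ (T.2 : ℕ) = T'.2 := by
  unfold c1
  rw [Fin.mk.injEq]

lemma c2_iff (T T' : Fin H × Fin H) : c2 T = c2 T' ↔ (T.1 : ℕ) + T.2 = T'.1 + T'.2 := by
  unfold c2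
  rw [Fin.mk.injEq]

lemma t_iff (T T' : Fin H × Fin H) : T = T' ↔ (T.1 : ℕ) = T'.1 ∧ (T.2 : ℕ) = T'.2 := by
  constructor
  · rintro rfl
    exact ⟨rfl, rfl⟩
  · rintro ⟨h1, h2⟩
    exact Prod.ext (Fin.ext h1) (Fin.ext h2)

open Classical in
lemma fac_le (hD : 0 < D) (T T' : Fin H × Fin H) :
    fac D (c0 T) (c0 T') * fac D (c1 T) (c1 T') * fac D (c2 T) (c2 T') ≤
      1 + D * ((if c0 T = c0 T' then (1 : ℝ) else 0) + (if c1 T = c1 T' then 1 else 0) +
        (if c2 T = c2 T' then 1 else 0)) + D ^ 3 * (if T = T' then 1 else 0) := by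
  have hDR : (1 : ℝ) ≤ D := by exact_mod_cast hD
  have hD3 : (0 : ℝ) ≤ (D : ℝ) ^ 3 := by positivity
  unfold fac
  by_cases h0 : c0 T = c0 T'
  · by_cases h1 : c1 T = c1 T'
    · have h2 : c2 T = c2 T' := by
        rw [c0_iff] at h0
        rw [c1_iff] at h1
        rw [c2_iff]
        omega
      have h3 : T = T' := by
        rw [c0_iff] at h0
        rw [c1_iff] at h1
        rw [t_iff]
        exact ⟨h0, h1⟩
      rw [if_pos h0, if_pos h1, if_pos h2, if_pos h0, if_pos h1, if_pos h2, if_pos h3]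
      nlinarith
    · have h2 : c2 T ≠ c2 T' := by
        rw [c0_iff] at h0
        rw [c1_iff] at h1
        rw [Ne, c2_iff]
        omega
      have h3 : T ≠ T' := by
        rw [Ne, t_iff]
        rw [c1_iff] at h1
        exact fun h => h1 h.2
      rw [if_pos h0, if_neg h1, if_neg h2, if_pos h0, if_neg h1, if_neg h2, if_neg h3]
      linarith
  · have h3 : T ≠ T' := by
      rw [Ne, t_iff]
      rw [c0_iff] at h0
      exact fun h => h0 h.1
    by_cases h1 : c1 T = c1 T'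
    · have h2 : c2 T ≠ c2 T' := by
        rw [c0_iff] at h0
        rw [c1_iff] at h1
        rw [Ne, c2_iff]
        omega
      rw [if_neg h0, if_pos h1, if_neg h2, if_neg h0, if_pos h1, if_neg h2, if_neg h3]
      linarith
    · by_cases h2 : c2 T = c2 T'
      · rw [if_neg h0, if_neg h1, if_pos h2, if_neg h0, if_neg h1, if_pos h2, if_neg h3]
        linarith
      · rw [if_neg h0, if_neg h1, if_neg h2, if_neg h0, if_neg h1, if_neg h2, if_neg h3]
        linarith

open Classical in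
lemma sum_fac (hD : 0 < D) (T : Fin H × Fin H) :
    ∑ T' : Fin H × Fin H, (fac D (c0 T) (c0 T') * fac D (c1 T) (c1 T') *
      fac D (c2 T) (c2 T')) ≤ (H : ℝ) ^ 2 + 3 * D * H + D ^ 3 := by
  refine (sum_le_sum fun T' _ => fac_le hD T T').trans ?_
  rw [sum_add_distrib, sum_add_distrib, ← mul_sum, ← mul_sum, sum_add_distrib, sum_add_distrib]
  rw [sum_const, card_univ, Fintype.card_prod, Fintype.card_fin, nsmul_eq_mul,
    mul_one, Finset.sum_boole, Finset.sum_boole, Finset.sum_boole]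
  have k1 : ((univ.filter fun T' : Fin H × Fin H => c0 T = c0 T').card : ℝ) ≤ H := by
    have : (univ.filter fun T' : Fin H × Fin H => c0 T = c0 T').card ≤
        (univ : Finset (Fin H)).card := by
      refine card_le_card_of_injOn (fun T' => T'.2) (fun _ _ => mem_coe.mpr (mem_univ _)) ?_
      intro x hx y hy hxy
      simp only [coe_filter, mem_univ, true_and, Set.mem_setOf_eq] at hx hy
      rw [c0_iff] at hx hy
      exact Prod.ext (Fin.ext (hx.symm.trans hy)) hxy
    rw [card_univ, Fintype.card_fin] at this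
    exact_mod_cast this
  have k2 : ((univ.filter fun T' : Fin H × Fin H => c1 T = c1 T').card : ℝ) ≤ H := by
    have : (univ.filter fun T' : Fin H × Fin H => c1 T = c1 T').card ≤
        (univ : Finset (Fin H)).card := by
      refine card_le_card_of_injOn (fun T' => T'.1) (fun _ _ => mem_coe.mpr (mem_univ _)) ?_
      intro x hx y hy hxy
      simp only [coe_filter, mem_univ, true_and, Set.mem_setOf_eq] at hx hy
      rw [c1_iff] at hx hy
      exact Prod.ext hxy (Fin.ext (hx.symm.trans hy))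
    rw [card_univ, Fintype.card_fin] at this
    exact_mod_cast this
  have k3 : ((univ.filter fun T' : Fin H × Fin H => c2 T = c2 T').card : ℝ) ≤ H := by
    have : (univ.filter fun T' : Fin H × Fin H => c2 T = c2 T').card ≤
        (univ : Finset (Fin H)).card := by
      refine card_le_card_of_injOn (fun T' => T'.1) (fun _ _ => mem_coe.mpr (mem_univ _)) ?_
      intro x hx y hy hxy
      simp only [coe_filter, mem_univ, true_and, Set.mem_setOf_eq] at hx hy
      rw [c2_iff] at hx hy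
      have h1 : (x.1 : ℕ) = y.1 := congrArg Fin.val hxy
      exact Prod.ext hxy (Fin.ext (by omega))
    rw [card_univ, Fintype.card_fin] at this
    exact_mod_cast this
  have k4 : ∑ x : Fin H × Fin H, (if T = x then (1 : ℝ) else 0) = 1 := by
    simp
  rw [k4]
  have hDR : (0 : ℝ) ≤ D := by positivity
  have k5 := mul_le_mul_of_nonneg_left (add_le_add (add_le_add k1 k2) k3) hDR
  push_cast
  linarith

open Classical in
/-- **Solutions.** -/
theorem card_no_sum {R : ℕ} (hD : 0 < D) (hR1 : D ≤ R) (hR2 : D ^ 3 ≤ R ^ 2) (hH : H = 300 * R)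
    (g : Fin 3 × Fin (2 * H) → E) (hg : Function.Injective g) :
    ((univ.filter fun f : E → Fin D => ¬ ∃ T : Fin H × Fin H, AllZero g T f).card : ℝ) ≤
      1 / 50 * (D : ℝ) ^ Fintype.card E := by
  have hDR : (1 : ℝ) ≤ D := by exact_mod_cast hD
  have hD0 : (0 : ℝ) < D := by linarith
  have hHR : (H : ℝ) = 300 * R := by exact_mod_cast hH
  have hRD : (D : ℝ) ≤ R := by exact_mod_cast hR1
  have hRD2 : (D : ℝ) ^ 3 ≤ (R : ℝ) ^ 2 := by exact_mod_cast hR2
  have hH0 : (0 : ℝ) < H := by rw [hHR]; linarith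
  obtain ⟨P, hP⟩ : ∃ P : ℝ, P = (D : ℝ) ^ Fintype.card E := ⟨_, rfl⟩
  have hP0 : 0 < P := by rw [hP]; positivity
  have hcardF : ((Fintype.card (E → Fin D) : ℕ) : ℝ) = P := by
    rw [hP, Fintype.card_fun, Fintype.card_fin]
    push_cast
    rfl
  rw [← hP]
  set X : (E → Fin D) → ℝ := fun f => ∑ T : Fin H × Fin H, zz g T f with hX
  have hzz : ∀ T f, zz g T f * zz g T f = zz (D := D) g T f := by
    intro T f
    unfold zz
    split_ifs <;> norm_num
  -- the first moment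
  have h1 : (D : ℝ) ^ 3 * ∑ f, X f = (H : ℝ) ^ 2 * P := by
    have h2 : ∀ T : Fin H × Fin H, (D : ℝ) ^ 3 * ∑ f : E → Fin D, zz g T f = P := by
      intro T
      have h3 := sum_zz hD g hg T T
      simp only [hzz] at h3
      unfold fac at h3
      simp only [if_true] at h3
      rw [← hP] at h3
      have h4 : (D : ℝ) ^ 3 ≠ 0 := by positivity
      refine mul_left_cancel₀ h4 ?_
      calc (D : ℝ) ^ 3 * ((D : ℝ) ^ 3 * ∑ f : E → Fin D, zz g T f) =
          (D : ℝ) ^ 6 * ∑ f : E → Fin D, zz g T f := by ring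
        _ = _ := h3
        _ = _ := by ring
    rw [hX]
    simp only
    rw [sum_comm, mul_sum, sum_congr rfl fun T _ => h2 T, sum_const, card_univ,
      Fintype.card_prod, Fintype.card_fin, nsmul_eq_mul]
    push_cast
    ring
  -- the second moment
  have h2 : (D : ℝ) ^ 6 * ∑ f, X f ^ 2 ≤ P * ((H : ℝ) ^ 2 * ((H : ℝ) ^ 2 + 3 * D * H + D ^ 3)) := by
    have h3 : ∑ f, X f ^ 2 = ∑ T : Fin H × Fin H, ∑ T' : Fin H × Fin H,
        ∑ f : E → Fin D, zz g T f * zz g T' f := by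
      have h4 : ∀ f : E → Fin D, X f ^ 2 = ∑ T : Fin H × Fin H,
          ∑ T' : Fin H × Fin H, zz g T f * zz g T' f := by
        intro f
        rw [hX]
        simp only
        rw [sq, sum_mul_sum]
      rw [sum_congr rfl fun f _ => h4 f, sum_comm]
      refine sum_congr rfl fun T _ => ?_
      rw [sum_comm]
    rw [h3, mul_sum]
    have h4 : ∀ T : Fin H × Fin H, (D : ℝ) ^ 6 * ∑ T' : Fin H × Fin H,
        ∑ f : E → Fin D, zz g T f * zz g T' f ≤ P * ((H : ℝ) ^ 2 + 3 * D * H + D ^ 3) := by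
      intro T
      rw [mul_sum, sum_congr rfl fun T' _ => sum_zz hD g hg T T', ← hP, ← mul_sum]
      exact mul_le_mul_of_nonneg_left (sum_fac hD T) hP0.le
    refine (sum_le_sum fun T _ => h4 T).trans (le_of_eq ?_)
    rw [sum_const, card_univ, Fintype.card_prod, Fintype.card_fin, nsmul_eq_mul]
    push_cast
    ring
  -- Chebyshev
  obtain ⟨q, hq⟩ : ∃ q : ℝ, q = (D : ℝ) ^ 3 := ⟨_, rfl⟩
  obtain ⟨s, hs⟩ : ∃ s : ℝ, s = (H : ℝ) ^ 2 := ⟨_, rfl⟩
  have hq0 : 0 < q := by rw [hq]; positivity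
  have hs0 : 0 < s := by rw [hs]; positivity
  have hq6 : (D : ℝ) ^ 6 = q ^ 2 := by rw [hq]; ring
  obtain ⟨μ, hμ⟩ : ∃ μ : ℝ, μ * q = s := ⟨s / q, by field_simp⟩
  obtain ⟨K, hK⟩ : ∃ K : ℝ, K = ((univ.filter fun f : E → Fin D =>
    ¬ ∃ T : Fin H × Fin H, AllZero g T f).card : ℝ) := ⟨_, rfl⟩
  rw [← hK]
  have h3 : K * μ ^ 2 ≤ ∑ f, (X f - μ) ^ 2 := by
    rw [hK, ← nsmul_eq_mul, ← sum_const]
    refine (sum_le_sum fun f hf => ?_).trans (sum_le_sum_of_subset_of_nonneg (subset_univ _)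
      fun f _ _ => sq_nonneg _)
    rw [mem_filter] at hf
    have h4 : X f = 0 := by
      rw [hX]
      simp only
      refine sum_eq_zero fun T _ => ?_
      unfold zz
      rw [if_neg fun h => hf.2 ⟨T, h⟩]
    rw [h4]
    linarith
  have h4 : ∑ f, (X f - μ) ^ 2 = ∑ f, X f ^ 2 - 2 * μ * ∑ f, X f + μ ^ 2 * P := by
    have h5 : ∀ f : E → Fin D, (X f - μ) ^ 2 = X f ^ 2 - 2 * μ * X f + μ ^ 2 := fun f => by ring
    rw [sum_congr rfl fun f _ => h5 f, sum_add_distrib, sum_sub_distrib, ← mul_sum, sum_const,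
      card_univ, nsmul_eq_mul, hcardF]
    ring
  obtain ⟨A, hA⟩ : ∃ A : ℝ, A = ∑ f, X f := ⟨_, rfl⟩
  obtain ⟨B, hB⟩ : ∃ B : ℝ, B = ∑ f, X f ^ 2 := ⟨_, rfl⟩
  rw [← hA, ← hq, ← hs] at h1
  rw [← hA, ← hB] at h4
  rw [← hB, hq6, ← hs, ← hq] at h2
  rw [h4] at h3
  have hA1 : A = μ * P := by
    have h5 : q * A = q * (μ * P) := by rw [h1, ← hμ]; ring
    exact mul_left_cancel₀ hq0.ne' h5
  have h5 : K * s ^ 2 ≤ q ^ 2 * B - s ^ 2 * P := by
    have h6 := mul_le_mul_of_nonneg_left h3 (sq_nonneg q)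
    rw [hA1] at h6
    have h7 : q ^ 2 * (K * μ ^ 2) = K * s ^ 2 := by rw [← hμ]; ring
    have h8 : q ^ 2 * (B - 2 * μ * (μ * P) + μ ^ 2 * P) = q ^ 2 * B - s ^ 2 * P := by
      rw [← hμ]; ring
    rw [h7, h8] at h6
    exact h6
  have h6 : K * s ^ 2 ≤ s * (P * (3 * D * H + q)) := by
    calc K * s ^ 2 ≤ q ^ 2 * B - s ^ 2 * P := h5
      _ ≤ P * (s * (s + 3 * D * H + q)) - s ^ 2 * P := by linarith
      _ = _ := by ring
  have h7 : 3 * (D : ℝ) * H + q ≤ 1 / 50 * s := by
    rw [hs, hq, hHR]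
    nlinarith
  have h8 : K * s ^ 2 ≤ s * (P * (1 / 50 * s)) := h6.trans
    (mul_le_mul_of_nonneg_left (mul_le_mul_of_nonneg_left h7 hP0.le) hs0.le)
  have h9 : s ^ 2 * K ≤ s ^ 2 * (1 / 50 * P) := by
    calc s ^ 2 * K = K * s ^ 2 := by ring
      _ ≤ _ := h8
      _ = _ := by ring
  exact le_of_mul_le_mul_left h9 (by positivity)

end Pool.Agent.V11231.SZF
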