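import Pool.Agent.V11231.SZF.Fin

/-! Sums `a + b = c` in sets of integers and circuits with unreliable negations, with the smaller
classes. -/

set_option autoImplicit false
set_option linter.unusedSectionVars false
set_option linter.unusedVariables false

namespace Pool.Agent.V11231.SZF

open Finset Pool.Agent.V11231.FLT Pool.Agent.V11231.VCF Filter
open Pool.Agent.H560R2 (Has3)
open Pool.Agent.W969.MC (RC)
open Pool.Agent.V11231.SMF (sum_hard2 posZ HasSum Good has_sum no_sum)

/-- the element whose presence is shown at position `e` -/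
def clsN (U K : ℕ) (e : Fin U) : Option ℤ :=
  if (e : ℕ) % (2 * K) < K then some ((((e : ℕ) / (2 * K) : ℕ) : ℤ)) else none

lemma pos_clsN (U K : ℕ) (S : Finset ℤ) : pos (clsN U K) S = posZ U K S := by
  ext e
  unfold pos clsN posZ
  rw [Set.mem_setOf_eq, Set.mem_setOf_eq]
  constructor
  · rintro ⟨z, hz, hS⟩
    split_ifs at hz with h1
    · rw [Option.mem_some_iff] at hz
      rw [hz]
      exact ⟨hS, h1⟩
    · simp at hz
  · rintro ⟨h1, h2⟩
    rw [if_pos h2]
    exact ⟨_, Option.mem_some_self _, h1⟩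

/-- the positions in the classes of `a`, `b`, `c` -/
lemma exists_gN {U H a b c : ℕ} (hab : a ≠ b) (hac : a ≠ c) (hbc : b ≠ c)
    (ha : (a + 1) * (2 * (2 * H)) ≤ U) (hb : (b + 1) * (2 * (2 * H)) ≤ U)
    (hc : (c + 1) * (2 * (2 * H)) ≤ U) :
    ∃ g : Fin 3 × Fin (2 * H) → Fin U, Function.Injective g ∧
      (∀ i, (g (0, i) : ℕ) = a * (2 * (2 * H)) + i) ∧
      (∀ i, (g (1, i) : ℕ) = b * (2 * (2 * H)) + i) ∧
      (∀ i, (g (2, i) : ℕ) = c * (2 * (2 * H)) + i) := by
  have hr : ∀ p : Fin 3 × Fin (2 * H), (![a, b, c] : Fin 3 → ℕ) p.1 * (2 * (2 * H)) + p.2 < U := by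
    rintro ⟨k, i⟩
    have hi := i.isLt
    fin_cases k
    · have : (a + 1) * (2 * (2 * H)) = a * (2 * (2 * H)) + 2 * (2 * H) := by ring
      change a * (2 * (2 * H)) + (i : ℕ) < U
      omega
    · have : (b + 1) * (2 * (2 * H)) = b * (2 * (2 * H)) + 2 * (2 * H) := by ring
      change b * (2 * (2 * H)) + (i : ℕ) < U
      omega
    · have : (c + 1) * (2 * (2 * H)) = c * (2 * (2 * H)) + 2 * (2 * H) := by ring
      change c * (2 * (2 * H)) + (i : ℕ) < U
      omega
  refine ⟨fun p => ⟨_, hr p⟩, ?_, fun i => rfl, fun i => rfl, fun i => rfl⟩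
  rintro ⟨k, i⟩ ⟨k', i'⟩ h
  have hi := i.isLt
  have hi' := i'.isLt
  have h1 : (![a, b, c] : Fin 3 → ℕ) k * (2 * (2 * H)) + i =
      (![a, b, c] : Fin 3 → ℕ) k' * (2 * (2 * H)) + i' := Fin.mk.inj h
  have hdiv : ∀ d j : ℕ, j < 2 * H → (d * (2 * (2 * H)) + j) / (2 * (2 * H)) = d := by
    intro d j hj
    rw [Nat.mul_comm d, Nat.mul_add_div (by omega), Nat.div_eq_of_lt (by omega), Nat.add_zero]
  have h2 : (![a, b, c] : Fin 3 → ℕ) k = (![a, b, c] : Fin 3 → ℕ) k' := by
    rw [← hdiv ((![a, b, c] : Fin 3 → ℕ) k) i hi, h1, hdiv _ _ hi']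
  have h3 : (i : ℕ) = i' := by
    rw [h2] at h1
    omega
  have h4 : k = k' := by
    fin_cases k <;> fin_cases k' <;>
      simp only [Fin.zero_eta, Fin.mk_one, Fin.reduceFinMk, Matrix.cons_val_zero,
        Matrix.cons_val_one, Matrix.cons_val] at h2 <;>
      first
      | rfl
      | exact absurd h2 (by omega)
  exact Prod.ext h4 (Fin.ext h3)

/-- **3SUM needs reliable negations**, with the better exponent. -/
theorem sum_fault2 (t h b : ℝ) (ht : 0 ≤ t) (hh : 0 ≤ h) (hb : 0 < b) (hth : t + h < 2) :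
    ∃ N₀ : ℕ, ∀ N : ℕ, N₀ ≤ N → ∀ U : ℕ, (N : ℝ) ^ (1 + h + b) ≤ U →
      ∀ D : ℕ, 1 ≤ D → (D : ℝ) ≤ (N : ℝ) ^ h →
      ∀ (R : Type) [Fintype R] [Nonempty R] (C : R → LiteralCircuit (Fin U)),
      (∀ x : Fin U → Bool, SMF.size x ≤ N → HasSum x → 4 / 5 ≤ faultyAcceptance C D x) →
      (∀ x : Fin U → Bool, SMF.size x ≤ N → ¬ HasSum x → acceptance C x ≤ 1 / 4) →
      ∃ r, (N : ℝ) ^ t < (C r).s := by
  have h1 : 0 < 1 - h / 2 := by linarith
  have h2 : t / (1 - h / 2) < 2 := by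
    rw [div_lt_iff₀ h1]
    linarith
  have h3 : 0 ≤ t / (1 - h / 2) := div_nonneg ht h1.le
  obtain ⟨a, ha, n₀, hn₀⟩ := sum_hard2 0 ((t / (1 - h / 2) + 2) / 2) b le_rfl (by linarith) hb
    (by linarith)
  obtain ⟨N₀, hN₀p, hN₀⟩ := params4 t h a ht hh hth ha n₀
  refine ⟨N₀, fun N hN U hU D hD hDN R _ _ C r1 r2 => ?_⟩
  obtain ⟨g1, g2, g3, g4⟩ := hN₀ N hN D hD hDN
  by_contra hlt
  push Not at hlt
  have hNp : 0 < N := lt_of_lt_of_le hN₀p hN
  have hNpos : (0 : ℝ) < N := by exact_mod_cast hNp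
  have hDR : (1 : ℝ) ≤ D := by exact_mod_cast hD
  have hR0 : 0 < rt D := lt_of_lt_of_le (by omega) (le_rt D hD)
  obtain ⟨r₀, -, hr₀⟩ := Finset.exists_max_image (univ : Finset R) (fun r => (C r).s)
    Finset.univ_nonempty
  obtain ⟨Λ, _, _, yes, no, hyes, hno, hcirc⟩ := hn₀ _ g1
  have hnD : 60000 * rt D * (N * D / (60000 * rt D)) ≤ N * D := Nat.mul_div_le (N * D) _
  obtain ⟨n, hn⟩ : ∃ n, n = N * D / (60000 * rt D) := ⟨_, rfl⟩
  rw [← hn] at g1 g2 g3 g4 hyes hno hcirc hnD
  have hnDr : 60000 * rt D * (n : ℝ) ≤ N * D := by exact_mod_cast hnD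
  have hn1 : (1 : ℝ) ≤ n := by exact_mod_cast g2
  have hnN : n ≤ N := by
    have h5 : D * n ≤ D * N := by
      calc D * n ≤ 60000 * rt D * n := Nat.mul_le_mul_right n (by
            have := le_rt D hD
            omega)
        _ ≤ N * D := hnD
        _ = _ := by ring
    exact Nat.le_of_mul_le_mul_left h5 (by omega)
  have hnNR : (n : ℝ) ≤ N := by exact_mod_cast hnN
  -- the range
  have hrange : ∀ z : ℕ, (z : ℝ) ≤ (n : ℝ) ^ (1 + 0 + b) →
      (z + 1) * (2 * (2 * (300 * rt D))) ≤ U := by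
    intro z hz
    have k1 : (1 : ℝ) ≤ (n : ℝ) ^ (1 + 0 + b) := Real.one_le_rpow hn1 (by linarith)
    have k2 : ((z : ℝ) + 1) * (2 * (2 * (300 * (rt D : ℝ)))) ≤ U := by
      have k3 : (z : ℝ) + 1 ≤ 2 * (n : ℝ) ^ (1 + 0 + b) := by linarith
      have k4 : (n : ℝ) ^ (1 + 0 + b) = n * (n : ℝ) ^ b := by
        rw [add_zero, Real.rpow_add (by linarith), Real.rpow_one]
      have k5 : (n : ℝ) ^ b ≤ (N : ℝ) ^ b := Real.rpow_le_rpow (by linarith) hnNR hb.le
      have k6 : (N : ℝ) ^ (1 + h + b) = N * (N : ℝ) ^ h * (N : ℝ) ^ b := by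
        rw [Real.rpow_add hNpos, Real.rpow_add hNpos, Real.rpow_one]
      refine le_trans ?_ hU
      calc ((z : ℝ) + 1) * (2 * (2 * (300 * (rt D : ℝ))))
          ≤ (2 * (n : ℝ) ^ (1 + 0 + b)) * (2 * (2 * (300 * (rt D : ℝ)))) := by gcongr
        _ = (2400 * rt D * n) * (n : ℝ) ^ b := by
            rw [k4]
            ring
        _ ≤ (N * (N : ℝ) ^ h) * (N : ℝ) ^ b := by
            have k7 : 2400 * rt D * (n : ℝ) ≤ N * (N : ℝ) ^ h := by
              have k8 : 0 ≤ (rt D : ℝ) * n := by positivity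
              have k9 : (N : ℝ) * D ≤ N * (N : ℝ) ^ h := mul_le_mul_of_nonneg_left hDN hNpos.le
              linarith
            gcongr
        _ = _ := k6.symm
    exact_mod_cast k2
  have hsz : ∀ S : Finset ℤ, S.card ≤ n → 50 * (S.card * (2 * (300 * rt D))) ≤ N * D := by
    intro S hS
    calc 50 * (S.card * (2 * (300 * rt D))) = 30000 * rt D * S.card := by ring
      _ ≤ 60000 * rt D * n := Nat.mul_le_mul (Nat.mul_le_mul_right _ (by norm_num)) hS
      _ ≤ N * D := hnD
  have hK : 0 < 2 * (300 * rt D) := by omega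
  have hDE : (0 : ℝ) ≤ (D : ℝ) ^ Fintype.card (Fin U) := by positivity
  classical
  refine core (E := Fin U) (D := D) hD (clsN U (2 * (300 * rt D)))
    (fun x => SMF.size x ≤ N ∧ HasSum x) (fun x => SMF.size x ≤ N ∧ ¬ HasSum x)
    ((n : ℝ) ^ (-a)) g4 yes no ?_ ?_ (C r₀).s ?_ C
    (fun r => hr₀ r (Finset.mem_univ _)) (fun x hx => r1 x hx.1 hx.2) (fun x hx => r2 x hx.1 hx.2)
  · intro l
    rw [pos_clsN]
    obtain ⟨y1, y2, x, hx, y, hy, z, hz, hxy, hxz, hyz, hsum⟩ := hyes l
    have hx2 := (y2 x hx).2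
    have hy2 := (y2 y hy).2
    have hz2 := (y2 z hz).2
    obtain ⟨x', rfl⟩ := Int.eq_ofNat_of_zero_le (y2 x hx).1
    obtain ⟨y', rfl⟩ := Int.eq_ofNat_of_zero_le (y2 y hy).1
    obtain ⟨z', rfl⟩ := Int.eq_ofNat_of_zero_le (y2 z hz).1
    have hxy' : x' ≠ y' := fun h => hxy (by rw [h])
    have hxz' : x' ≠ z' := fun h => hxz (by rw [h])
    have hyz' : y' ≠ z' := fun h => hyz (by rw [h])
    have hs' : x' + y' = z' := by exact_mod_cast hsum
    rw [Int.cast_natCast] at hx2 hy2 hz2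
    obtain ⟨g, hg, q0, q1, q2⟩ := exists_gN (U := U) (H := 300 * rt D) hxy' hxz' hyz'
      (hrange x' hx2) (hrange y' hy2) (hrange z' hz2)
    have m1 := card_no_sum (H := 300 * rt D) (D := D) hD (le_rt D hD) (rt_cube D) rfl g hg
    have m2 := SMF.card_large (U := U) (K := 2 * (300 * rt D)) hD (yes l) N (hsz _ y1) hNp
    have m3 : ((univ.filter fun f : Fin U → Fin D =>
        ¬ (SMF.size (mix (posZ U (2 * (300 * rt D)) (yes l)) (fun _ => false) f) ≤ N ∧
          HasSum (mix (posZ U (2 * (300 * rt D)) (yes l)) (fun _ => false) f))).card : ℝ) ≤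
        ((univ.filter fun f : Fin U → Fin D =>
          ¬ ∃ T : Fin (300 * rt D) × Fin (300 * rt D), AllZero g T f).card : ℝ) +
        ((univ.filter fun f : Fin U → Fin D =>
          N < SMF.size (mix (posZ U (2 * (300 * rt D)) (yes l)) (fun _ => false) f)).card : ℝ) := by
      have h8 : (univ.filter fun f : Fin U → Fin D =>
          ¬ (SMF.size (mix (posZ U (2 * (300 * rt D)) (yes l)) (fun _ => false) f) ≤ N ∧
          HasSum (mix (posZ U (2 * (300 * rt D)) (yes l)) (fun _ => false) f))) ⊆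
          (univ.filter fun f : Fin U → Fin D =>
            ¬ ∃ T : Fin (300 * rt D) × Fin (300 * rt D), AllZero g T f) ∪
          (univ.filter fun f : Fin U → Fin D =>
            N < SMF.size (mix (posZ U (2 * (300 * rt D)) (yes l)) (fun _ => false) f)) := by
        intro f hf
        rw [Finset.mem_filter] at hf
        rw [Finset.mem_union, Finset.mem_filter, Finset.mem_filter]
        by_cases hgd : ∃ T : Fin (300 * rt D) × Fin (300 * rt D), AllZero g T f
        · right
          refine ⟨Finset.mem_univ _, ?_⟩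
          by_contra h9
          refine hf.2 ⟨not_lt.mp h9, has_sum hxy' hxz' hyz' hs' hx hy hz f ?_⟩
          obtain ⟨T, f0, f1, f2⟩ := hgd
          have e1 := T.1.isLt
          have e2 := T.2.isLt
          exact ⟨T.1, T.2, by omega, _, _, _, q0 (c0 T), q1 (c1 T), q2 (c2 T), f0, f1, f2⟩
        · left
          exact ⟨Finset.mem_univ _, hgd⟩
      have h9 := (Finset.card_le_card h8).trans (Finset.card_union_le _ _)
      exact_mod_cast h9
    refine le_trans (le_of_eq ?_) (m3.trans ?_)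
    · congr!
    · have m1' : ((univ.filter fun f : Fin U → Fin D =>
          ¬ ∃ T : Fin (300 * rt D) × Fin (300 * rt D), AllZero g T f).card : ℝ) ≤
          1 / 50 * (D : ℝ) ^ Fintype.card (Fin U) := by
        refine le_trans (le_of_eq ?_) m1
        congr!
      have m2' : ((univ.filter fun f : Fin U → Fin D =>
          N < SMF.size (mix (posZ U (2 * (300 * rt D)) (yes l)) (fun _ => false) f)).card : ℝ) ≤
          1 / 50 * (D : ℝ) ^ Fintype.card (Fin U) := by
        refine le_trans (le_of_eq ?_) m2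
        congr!
      linarith
  · intro l
    rw [pos_clsN]
    obtain ⟨y1, -, y3⟩ := hno l
    have m2 := SMF.card_large (U := U) (K := 2 * (300 * rt D)) hD (no l) N (hsz _ y1) hNp
    have m4 : (univ.filter fun f : Fin U → Fin D =>
        ¬ (SMF.size (mix (posZ U (2 * (300 * rt D)) (no l)) (fun _ => false) f) ≤ N ∧
          ¬ HasSum (mix (posZ U (2 * (300 * rt D)) (no l)) (fun _ => false) f))) ⊆
        (univ.filter fun f : Fin U → Fin D =>
          N < SMF.size (mix (posZ U (2 * (300 * rt D)) (no l)) (fun _ => false) f)) := by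
      intro f hf
      rw [Finset.mem_filter] at hf ⊢
      refine ⟨hf.1, ?_⟩
      by_contra h9
      exact hf.2 ⟨not_lt.mp h9, no_sum hK y3 f⟩
    have m5 : ((univ.filter fun f : Fin U → Fin D =>
        ¬ (SMF.size (mix (posZ U (2 * (300 * rt D)) (no l)) (fun _ => false) f) ≤ N ∧
          ¬ HasSum (mix (posZ U (2 * (300 * rt D)) (no l)) (fun _ => false) f))).card : ℝ) ≤
        ((univ.filter fun f : Fin U → Fin D =>
          N < SMF.size (mix (posZ U (2 * (300 * rt D)) (no l)) (fun _ => false) f)).card : ℝ) := by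
      exact_mod_cast Finset.card_le_card m4
    refine le_trans (le_of_eq ?_) (m5.trans ?_)
    · congr!
    · have m2' : ((univ.filter fun f : Fin U → Fin D =>
          N < SMF.size (mix (posZ U (2 * (300 * rt D)) (no l)) (fun _ => false) f)).card : ℝ) ≤
          1 / 50 * (D : ℝ) ^ Fintype.card (Fin U) := by
        refine le_trans (le_of_eq ?_) m2
        congr!
      linarith
  · intro C' hT' hS'
    have q1 := hcirc C'.S C'.T C'.wd C'.a C'.op C'.θ C'.val C'.o C'.τ C'.htop C'.hmon C'.hT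
      C'.hval (by
        rw [hT', Finset.sum_empty, Nat.add_zero]
        have q2 : (C'.S : ℝ) ≤ ((C r₀).s : ℝ) := by exact_mod_cast hS'
        exact q2.trans ((hlt r₀).trans g3)) (by
        rw [hT', Finset.prod_empty, Real.rpow_zero]
        norm_num)
    exact q1

end Pool.Agent.V11231.SZF
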